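import Pool.Agent.Helper22.Half.Defs

/-!
Project EKC, corollary on the near-extremal values of `log ψ'`: definitions.
-/

set_option autoImplicit false

namespace Pool.Agent.Helper42.EKC

open Pool.Agent.Helper22.Half (SigmaLog)

/-- The moment bound with the exact power `‖t‖ - 1`, for the complex exponent `t`, uniform on the
class Sigma. -/
def Mom (t : ℂ) : Prop :=
  ∃ C : ℝ, ∀ ψ h : ℂ → ℂ, SigmaLog ψ h → ∀ R : ℝ, 1 < R →
    (1 / (2 * Real.pi)) * ∫ θ in (0:ℝ)..(2 * Real.pi),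
      ‖Complex.exp (t * h ((R : ℂ) * Complex.exp ((θ : ℂ) * Complex.I)))‖ ≤
        C * (R ^ 2 / (R ^ 2 - 1)) ^ (‖t‖ - 1)

end Pool.Agent.Helper42.EKC
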