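import Pool.Agent.Helper42.EKC.Defs7
import Pool.Agent.Helper39.Area.Exterior
import Pool.Agent.Helper22.Marshall.ClassIneq

/-!
Project EKC: the moment bound for the exponent two, from the area theorem.
-/

set_option autoImplicit false

open Complex MeasureTheory Metric Set Filter Topology
open scoped Real ComplexConjugate

namespace Pool.Agent.Helper42.EKC

open Pool.Agent.Helper22.Half (SigmaLog)
open Pool.Agent.Helper39.Area (Ext phi toDisc ext_data)
open Pool.Agent.Helper22.Marshall (coeff hasSum_coeff parseval_comb gLe_one)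

theorem nat_mul_pow_le {x : ℝ} (h0 : 0 ≤ x) (h1 : x < 1) (n : ℕ) :
    (n : ℝ) * x ^ n ≤ 1 / (1 - x) := by
  have h2 : (n : ℝ) * x ^ n ≤ ∑ k ∈ Finset.range n, x ^ k := by
    have : (n : ℝ) * x ^ n = ∑ k ∈ Finset.range n, x ^ n := by simp
    rw [this]
    apply Finset.sum_le_sum
    intro k hk
    exact pow_le_pow_of_le_one h0 h1.le (Finset.mem_range.mp hk).le
  have h3 : ∑ k ∈ Finset.range n, x ^ k ≤ 1 / (1 - x) := by
    rw [geom_sum_eq h1.ne, le_div_iff₀ (by linarith)]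
    have h4 : (x ^ n - 1) / (x - 1) * (1 - x) = 1 - x ^ n := by
      have : x - 1 ≠ 0 := by linarith
      field_simp
      ring
    rw [h4]
    linarith [pow_nonneg h0 n]
  linarith

/-- Gronwall's area theorem -/
theorem area_coeff {β : ℂ → ℂ} (hE : Ext β) (M : ℕ) :
    ∑ m ∈ Finset.range M, (m : ℝ) * ‖coeff β m‖ ^ 2 ≤ 1 := by
  set v : ℕ → ℂ := fun m => if m = 0 then 1 else coeff β (m - 1) with hv
  have hv0 : v 0 = 1 := by simp [hv]
  have hvs : ∀ m, v (m + 1) = coeff β m := by intro m; simp [hv]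
  have h1 := gLe_one hE 1 Polynomial.X v (by simp) (by
    intro ζ hζ0 hζ1
    rw [← hasSum_nat_add_iff' 1]
    simp only [Finset.range_one, Finset.sum_singleton, pow_zero, mul_one, hv0, hvs, pow_one,
      Polynomial.eval_X]
    have h2 := (hasSum_coeff hE.diff hζ1).mul_left ζ
    have h3 : ζ * phi β ζ - 1 = ζ * β ζ := by
      unfold Pool.Agent.Helper39.Area.phi
      field_simp
      ring
    rw [h3]
    refine h2.congr_fun ?_
    intro m
    ring) (M + 1)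
  rw [Finset.sum_range_succ'] at h1
  simp only [Finset.range_one, Finset.sum_singleton, hv0, hvs, norm_one, one_pow, mul_one,
    Nat.add_sub_cancel, Nat.zero_sub, Nat.cast_zero, Nat.sub_zero, Nat.cast_one, add_zero] at h1
  simpa using h1

theorem mean_deriv_le {β : ℂ → ℂ} (hE : Ext β) {r : ℝ} (hr : 0 ≤ r) (hr1 : r < 1) :
    (1 / (2 * π)) * ∫ θ in (-π)..π, ‖((r : ℂ) * Complex.exp ((θ : ℂ) * Complex.I)) *
      deriv β ((r : ℂ) * Complex.exp ((θ : ℂ) * Complex.I))‖ ^ 2 ≤ 1 / (1 - r ^ 2) := by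
  have h1 := parseval_comb hE.diff 1 0 hr hr1
  simp only [one_mul, zero_mul, add_zero] at h1
  have hx1 : r ^ 2 < 1 := by nlinarith
  have hx0 : 0 ≤ r ^ 2 := by positivity
  have hpos : 0 < 1 - r ^ 2 := by linarith
  refine hasSum_le_of_sum_le h1 ?_
  intro s
  obtain ⟨M, hM⟩ := s.exists_nat_subset_range
  have h2 : ∀ n : ℕ, ‖(n : ℂ) * coeff β n‖ ^ 2 * r ^ (2 * n) ≤
      1 / (1 - r ^ 2) * ((n : ℝ) * ‖coeff β n‖ ^ 2) := by
    intro n
    have h3 := nat_mul_pow_le hx0 hx1 n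
    rw [norm_mul, Complex.norm_natCast, mul_pow, pow_mul]
    have h4 : (n : ℝ) ^ 2 * ‖coeff β n‖ ^ 2 * (r ^ 2) ^ n =
        ((n : ℝ) * (r ^ 2) ^ n) * ((n : ℝ) * ‖coeff β n‖ ^ 2) := by ring
    rw [h4]
    exact mul_le_mul_of_nonneg_right h3 (by positivity)
  calc ∑ n ∈ s, ‖(n : ℂ) * coeff β n‖ ^ 2 * r ^ (2 * n)
      ≤ ∑ n ∈ Finset.range M, ‖(n : ℂ) * coeff β n‖ ^ 2 * r ^ (2 * n) :=
        Finset.sum_le_sum_of_subset_of_nonneg hM fun n _ _ => by positivity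
    _ ≤ ∑ n ∈ Finset.range M, 1 / (1 - r ^ 2) * ((n : ℝ) * ‖coeff β n‖ ^ 2) :=
        Finset.sum_le_sum fun n _ => h2 n
    _ = 1 / (1 - r ^ 2) * ∑ n ∈ Finset.range M, (n : ℝ) * ‖coeff β n‖ ^ 2 := by
        rw [Finset.mul_sum]
    _ ≤ 1 / (1 - r ^ 2) * 1 :=
        mul_le_mul_of_nonneg_left (area_coeff hE M) (by positivity)
    _ = 1 / (1 - r ^ 2) := mul_one _

theorem mom_two : Mom 2 := by
  refine ⟨4, fun ψ h H R hR => ?_⟩
  obtain ⟨b, hb⟩ := H.normalised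
  obtain ⟨hE, hex⟩ := ext_data H.diff H.inj hb H.exp_eq
  set β : ℂ → ℂ := toDisc b (fun z => ψ z - z) with hβ
  have hR0 : 0 < R := by linarith
  have hr0 : 0 < R⁻¹ := by positivity
  have hr1 : R⁻¹ < 1 := inv_lt_one_of_one_lt₀ hR
  obtain ⟨k, hk⟩ : ∃ k : ℝ → ℝ, k = fun (α : ℝ) =>
    ‖(((R⁻¹ : ℝ) : ℂ) * Complex.exp ((α : ℂ) * I)) *
      deriv β (((R⁻¹ : ℝ) : ℂ) * Complex.exp ((α : ℂ) * I))‖ ^ 2 := ⟨_, rfl⟩
  have hnorm : ∀ α : ℝ, ‖((R⁻¹ : ℝ) : ℂ) * Complex.exp ((α : ℂ) * I)‖ = R⁻¹ := by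
    intro α
    rw [norm_mul, Complex.norm_exp_ofReal_mul_I, mul_one, Complex.norm_real,
      Real.norm_of_nonneg hr0.le]
  have h1 : ∀ θ : ℝ, ‖Complex.exp (2 * h ((R : ℂ) * Complex.exp ((θ : ℂ) * I)))‖ ≤
      2 + 2 * k (-θ) := by
    intro θ
    have hne0 : ((R⁻¹ : ℝ) : ℂ) * Complex.exp (((-θ : ℝ) : ℂ) * I) ≠ 0 := by
      apply mul_ne_zero _ (Complex.exp_ne_zero _)
      exact_mod_cast inv_ne_zero hR0.ne'
    have hmem : ((R⁻¹ : ℝ) : ℂ) * Complex.exp (((-θ : ℝ) : ℂ) * I) ∈ ball (0:ℂ) 1 := by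
      rw [mem_ball_zero_iff, hnorm]
      exact hr1
    have h2 : (((R⁻¹ : ℝ) : ℂ) * Complex.exp (((-θ : ℝ) : ℂ) * I))⁻¹ =
        (R : ℂ) * Complex.exp ((θ : ℂ) * I) := by
      rw [mul_inv, ← Complex.exp_neg]
      push_cast
      rw [inv_inv]
      congr 2
      ring
    have h3 := hex _ hmem
    have h3' : toDisc 0 h (((R⁻¹ : ℝ) : ℂ) * Complex.exp (((-θ : ℝ) : ℂ) * I)) =
        h ((R : ℂ) * Complex.exp ((θ : ℂ) * I)) := by
      simp only [toDisc]
      rw [if_neg hne0, h2]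
    rw [h3'] at h3
    have h4 : Complex.exp (2 * h ((R : ℂ) * Complex.exp ((θ : ℂ) * I))) =
        Complex.exp (h ((R : ℂ) * Complex.exp ((θ : ℂ) * I))) ^ 2 := by
      rw [← Complex.exp_nat_mul]
      norm_num
    rw [h4, norm_pow, h3]
    set ζ : ℂ := ((R⁻¹ : ℝ) : ℂ) * Complex.exp (((-θ : ℝ) : ℂ) * I) with hζ
    have hζn : ‖ζ‖ ≤ 1 := by rw [hζ, hnorm]; exact hr1.le
    have h5 : ‖1 - ζ ^ 2 * deriv β ζ‖ ≤ 1 + ‖ζ * deriv β ζ‖ := by
      refine (norm_sub_le _ _).trans ?_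
      rw [norm_one]
      have h6 : ζ ^ 2 * deriv β ζ = ζ * (ζ * deriv β ζ) := by ring
      rw [h6, norm_mul]
      have : ‖ζ‖ * ‖ζ * deriv β ζ‖ ≤ 1 * ‖ζ * deriv β ζ‖ :=
        mul_le_mul_of_nonneg_right hζn (norm_nonneg _)
      linarith
    have h7 : k (-θ) = ‖ζ * deriv β ζ‖ ^ 2 := by
      rw [hk, hζ]
    rw [h7]
    nlinarith [norm_nonneg (1 - ζ ^ 2 * deriv β ζ), norm_nonneg (ζ * deriv β ζ),
      sq_nonneg (1 - ‖ζ * deriv β ζ‖)]
  have hkc : Continuous k := by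
    have hd : DifferentiableOn ℂ (deriv β) (ball 0 1) := hE.diff.deriv isOpen_ball
    have h8 : Continuous fun α : ℝ =>
        deriv β (((R⁻¹ : ℝ) : ℂ) * Complex.exp ((α : ℂ) * I)) := by
      rw [continuous_iff_continuousAt]
      intro α
      have hmem : ((R⁻¹ : ℝ) : ℂ) * Complex.exp ((α : ℂ) * I) ∈ ball (0:ℂ) 1 := by
        rw [mem_ball_zero_iff, hnorm]
        exact hr1
      have h9 : ContinuousAt (deriv β) (((R⁻¹ : ℝ) : ℂ) * Complex.exp ((α : ℂ) * I)) :=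
        (hd.differentiableAt (isOpen_ball.mem_nhds hmem)).continuousAt
      exact ContinuousAt.comp
        (f := fun α : ℝ => ((R⁻¹ : ℝ) : ℂ) * Complex.exp ((α : ℂ) * I)) h9 (by fun_prop)
    rw [hk]
    exact ((by fun_prop : Continuous fun α : ℝ =>
      ((R⁻¹ : ℝ) : ℂ) * Complex.exp ((α : ℂ) * I)).mul h8).norm.pow 2
  have hhc : Continuous fun θ : ℝ =>
      ‖Complex.exp (2 * h ((R : ℂ) * Complex.exp ((θ : ℂ) * I)))‖ := by
    have h8 : Continuous fun θ : ℝ => h ((R : ℂ) * Complex.exp ((θ : ℂ) * I)) := by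
      rw [continuous_iff_continuousAt]
      intro θ
      have hmem : 1 < ‖(R : ℂ) * Complex.exp ((θ : ℂ) * I)‖ := by
        rw [norm_mul, Complex.norm_exp_ofReal_mul_I, mul_one, Complex.norm_real,
          Real.norm_of_nonneg (by linarith)]
        exact hR
      have h9 : ContinuousAt h ((R : ℂ) * Complex.exp ((θ : ℂ) * I)) :=
        (H.hdiff.differentiableAt
          ((isOpen_lt continuous_const continuous_norm).mem_nhds hmem)).continuousAt
      exact ContinuousAt.comp (f := fun θ : ℝ => (R : ℂ) * Complex.exp ((θ : ℂ) * I)) h9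
        (by fun_prop)
    exact (Complex.continuous_exp.comp (continuous_const.mul h8)).norm
  have hint : (∫ θ in (0:ℝ)..(2 * π),
      ‖Complex.exp (2 * h ((R : ℂ) * Complex.exp ((θ : ℂ) * I)))‖) ≤
      ∫ θ in (0:ℝ)..(2 * π), (2 + 2 * k (-θ)) := by
    apply intervalIntegral.integral_mono_on Real.two_pi_pos.le (hhc.intervalIntegrable _ _)
    · apply Continuous.intervalIntegrable
      have := hkc.comp continuous_neg
      simp only [Function.comp_def] at this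
      fun_prop
    · intro θ _
      exact h1 θ
  have hkper : Function.Periodic k (2 * π) := by
    intro θ
    simp only [hk]
    have : Complex.exp (((θ + 2 * π : ℝ) : ℂ) * I) = Complex.exp ((θ : ℂ) * I) := by
      push_cast
      rw [add_mul, Complex.exp_add, Complex.exp_two_pi_mul_I, mul_one]
    rw [this]
  have hsplit : (∫ θ in (0:ℝ)..(2 * π), (2 + 2 * k (-θ))) =
      2 * (2 * π) + 2 * ∫ θ in (-π)..π, k θ := by
    have hkn : Continuous fun θ : ℝ => k (-θ) := hkc.comp continuous_neg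
    have hkn2 : Continuous fun θ : ℝ => 2 * k (-θ) := continuous_const.mul hkn
    rw [intervalIntegral.integral_add (continuous_const.intervalIntegrable _ _)
      (hkn2.intervalIntegrable _ _), intervalIntegral.integral_const_mul,
      intervalIntegral.integral_comp_neg (fun θ => k θ), intervalIntegral.integral_const]
    have h2 := hkper.intervalIntegral_add_eq (-(2 * π)) (-π)
    have e1 : -(2 * π) + 2 * π = (0:ℝ) := by ring
    have e2 : -π + 2 * π = (π : ℝ) := by ring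
    rw [e1, e2] at h2
    rw [neg_zero, h2, smul_eq_mul]
    ring
  have hmean := mean_deriv_le hE hr0.le hr1
  have hk2 : (∫ θ in (-π)..π, k θ) = ∫ θ in (-π)..π,
      ‖(((R⁻¹ : ℝ) : ℂ) * Complex.exp ((θ : ℂ) * Complex.I)) *
      deriv β (((R⁻¹ : ℝ) : ℂ) * Complex.exp ((θ : ℂ) * Complex.I))‖ ^ 2 := by
    rw [hk]
  rw [← hk2] at hmean
  have hR2 : 0 < R ^ 2 - 1 := by nlinarith
  have hx : 1 / (1 - R⁻¹ ^ 2) = R ^ 2 / (R ^ 2 - 1) := by
    rw [inv_pow]
    field_simp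
  rw [hx] at hmean
  have hx1 : 1 ≤ R ^ 2 / (R ^ 2 - 1) := by
    rw [le_div_iff₀ hR2]
    linarith
  have hn2 : (‖(2:ℂ)‖ - 1 : ℝ) = 1 := by
    rw [Complex.norm_ofNat]
    norm_num
  rw [hn2, Real.rpow_one]
  have hpi : 0 < 1 / (2 * π) := by positivity
  calc 1 / (2 * π) * ∫ θ in (0:ℝ)..(2 * π),
        ‖Complex.exp (2 * h ((R : ℂ) * Complex.exp ((θ : ℂ) * I)))‖
      ≤ 1 / (2 * π) * (2 * (2 * π) + 2 * ∫ θ in (-π)..π, k θ) := by
        rw [← hsplit]
        exact mul_le_mul_of_nonneg_left hint hpi.le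
    _ = 2 + 2 * (1 / (2 * π) * ∫ θ in (-π)..π, k θ) := by
        have : π ≠ 0 := Real.pi_ne_zero
        field_simp
    _ ≤ 2 + 2 * (R ^ 2 / (R ^ 2 - 1)) := by linarith
    _ ≤ 4 * (R ^ 2 / (R ^ 2 - 1)) := by linarith

end Pool.Agent.Helper42.EKC
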