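import Pool.Agent.Helper42.EKC.Near
import Pool.Agent.Helper42.EKC.Two

/-!
Project EKC: the near-extremal part of the integral of Q1, from the moment bounds.
-/

set_option autoImplicit false

open Complex MeasureTheory Metric Set Filter Topology
open scoped Real ComplexConjugate

namespace Pool.Agent.Helper42.EKC

/-- the moment bound of project EKC, in the form in which it is proved there -/
def MomE (t : ℂ) : Prop :=
  ∃ C : ℝ, ∀ ψ h : ℂ → ℂ, DifferentiableOn ℂ ψ {z : ℂ | 1 < ‖z‖} →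
    InjOn ψ {z : ℂ | 1 < ‖z‖} →
    (∃ b : ℂ, Filter.Tendsto (fun z => ψ z - z) (Bornology.cobounded ℂ) (nhds b)) →
    DifferentiableOn ℂ h {z : ℂ | 1 < ‖z‖} →
    (∀ z : ℂ, 1 < ‖z‖ → Complex.exp (h z) = deriv ψ z) →
    Filter.Tendsto h (Bornology.cobounded ℂ) (nhds 0) →
    ∀ R : ℝ, 1 < R →
    (2 * π)⁻¹ * (∫ θ in (0:ℝ)..(2 * π), ‖Complex.exp (t * h (R * Complex.exp (θ * I)))‖) ≤
      C * (R ^ 2 / (R ^ 2 - 1)) ^ (‖t‖ - 1)

theorem MomE.mom {t : ℂ} (h : MomE t) : Mom t := by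
  obtain ⟨C, hC⟩ := h
  refine ⟨C, fun ψ h H R hR => ?_⟩
  rw [one_div]
  exact hC ψ h H.diff H.inj H.normalised H.hdiff H.exp_eq H.lim R hR

/-- every direction has a good exponent -/
theorem directions (H : ∀ t : ℂ, 9 ≤ ‖t‖ - t.re → MomE t) (w : ℂ) (hw : ‖w‖ = 1) :
    ∃ t : ℂ, Mom t ∧ (t * w).re = ‖t‖ := by
  by_cases h1 : w = 1
  · refine ⟨2, mom_two, ?_⟩
    rw [h1, mul_one, Complex.norm_ofNat]
    norm_num
  · have hre : w.re < 1 := by
      have h2 : w.re ≤ 1 := by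
        rw [← hw]
        exact Complex.re_le_norm w
      refine lt_of_le_of_ne h2 fun h3 => h1 ?_
      have h4 : w.re ^ 2 + w.im ^ 2 = 1 := by
        have h5 := Complex.normSq_eq_norm_sq w
        rw [hw, Complex.normSq_apply] at h5
        nlinarith
      rw [h3] at h4
      have h6 : w.im = 0 := by nlinarith
      exact Complex.ext (by simpa using h3) (by simpa using h6)
    have hpos : 0 < 1 - w.re := by linarith
    have hK : 0 < 9 / (1 - w.re) := by positivity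
    have hn : ‖((9 / (1 - w.re) : ℝ) : ℂ) * conj w‖ = 9 / (1 - w.re) := by
      rw [norm_mul, Complex.norm_real, Real.norm_of_nonneg hK.le, RCLike.norm_conj, hw, mul_one]
    refine ⟨((9 / (1 - w.re) : ℝ) : ℂ) * conj w, (H _ ?_).mom, ?_⟩
    · rw [hn, Complex.re_ofReal_mul, Complex.conj_re]
      have : 9 / (1 - w.re) - 9 / (1 - w.re) * w.re = 9 := by
        field_simp
      rw [this]
    · have h7 : ((9 / (1 - w.re) : ℝ) : ℂ) * conj w * w = ((9 / (1 - w.re) : ℝ) : ℂ) := by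
        rw [mul_assoc, mul_comm (conj w) w, Complex.mul_conj, Complex.normSq_eq_norm_sq, hw]
        simp
      rw [h7, hn, Complex.ofReal_re]

/-- The near-extremal part of the integral of Q1. -/
theorem near_extremal (H : ∀ t : ℂ, 9 ≤ ‖t‖ - t.re → MomE t) {a : ℝ} (ha : a < 1) :
    ∃ s : ℝ, s < 1 ∧ ∃ C : ℝ, ∀ ψ h : ℂ → ℂ, DifferentiableOn ℂ ψ {z : ℂ | 1 < ‖z‖} →
      InjOn ψ {z : ℂ | 1 < ‖z‖} →
      (∃ b : ℂ, Filter.Tendsto (fun z => ψ z - z) (Bornology.cobounded ℂ) (nhds b)) →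
      DifferentiableOn ℂ h {z : ℂ | 1 < ‖z‖} →
      (∀ z : ℂ, 1 < ‖z‖ → Complex.exp (h z) = deriv ψ z) →
      Filter.Tendsto h (Bornology.cobounded ℂ) (nhds 0) →
      ∀ R : ℝ, 1 < R →
      (1 / (2 * Real.pi)) * ∫ θ in (0:ℝ)..(2 * Real.pi),
        (if s * Real.log (R ^ 2 / (R ^ 2 - 1)) ≤
            ‖h ((R : ℂ) * Complex.exp ((θ : ℂ) * Complex.I))‖ then
          Real.exp (a * ‖h ((R : ℂ) * Complex.exp ((θ : ℂ) * Complex.I))‖ ^ 2
            / Real.log (R ^ 2 / (R ^ 2 - 1))) else 0) ≤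
        C * ((R ^ 2 - 1) / R ^ 2) ^ ((1 - a) / 2) := by
  obtain ⟨s, hs, C, hC⟩ := near ha (directions H)
  exact ⟨s, hs, C, fun ψ h a1 a2 a3 a4 a5 a6 R hR => hC ψ h ⟨a1, a2, a3, a4, a5, a6⟩ R hR⟩

end Pool.Agent.Helper42.EKC
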