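import Pool.Agent.Helper42.EKC.Fin7
import Pool.Agent.Helper96.EKC.Asm
import Pool.Agent.Helper71.EKC.Oct

/-!
Project EKC: the near-extremal part of the integral of Q1, unconditionally.
-/

set_option autoImplicit false

open Complex MeasureTheory Metric Set Filter Topology
open scoped Real ComplexConjugate

namespace Pool.Agent.Helper42.EKC

theorem parabola {t : ℂ} (ht : 9 ≤ ‖t‖ - t.re) : MomE t := by
  have h1 : |t.re| ≤ ‖t‖ := Complex.abs_re_le_norm t
  have h2 := neg_abs_le t.re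
  have h3 : t ≠ 0 := by
    rintro rfl
    norm_num at ht
  refine Pool.Agent.Helper96.EKC.upper Pool.Agent.Helper71.EKC.cover h3 ?_
  have h4 : 0 ≤ 2 * ‖t‖ - (‖t‖ - t.re) := by linarith
  have h5 : 0 ≤ (2 * ‖t‖ - (‖t‖ - t.re)) * (2 * (‖t‖ - t.re) - 9) :=
    mul_nonneg h4 (by linarith)
  have h6 : 0 ≤ (‖t‖ - t.re) * (‖t‖ - t.re - 9) := mul_nonneg (by linarith) (by linarith)
  nlinarith

/-- Strong Marshall on the near-extremal values of `log ψ'`, for every `a < 1`: the part of the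
integral on which `|log ψ'| ≥ s log (R² / (R² - 1))` tends to zero, uniformly on the class
Sigma. -/
theorem main7 {a : ℝ} (ha : a < 1) :
    ∃ s : ℝ, s < 1 ∧ ∃ C : ℝ, ∀ ψ h : ℂ → ℂ, DifferentiableOn ℂ ψ {z : ℂ | 1 < ‖z‖} →
      InjOn ψ {z : ℂ | 1 < ‖z‖} →
      (∃ b : ℂ, Filter.Tendsto (fun z => ψ z - z) (Bornology.cobounded ℂ) (nhds b)) →
      DifferentiableOn ℂ h {z : ℂ | 1 < ‖z‖} →
      (∀ z : ℂ, 1 < ‖z‖ → Complex.exp (h z) = deriv ψ z) →
      Filter.Tendsto h (Bornology.cobounded ℂ) (nhds 0) →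
      ∀ R : ℝ, 1 < R →
      (1 / (2 * Real.pi)) * ∫ θ in (0:ℝ)..(2 * Real.pi),
        (if s * Real.log (R ^ 2 / (R ^ 2 - 1)) ≤
            ‖h ((R : ℂ) * Complex.exp ((θ : ℂ) * Complex.I))‖ then
          Real.exp (a * ‖h ((R : ℂ) * Complex.exp ((θ : ℂ) * Complex.I))‖ ^ 2
            / Real.log (R ^ 2 / (R ^ 2 - 1))) else 0) ≤
        C * ((R ^ 2 - 1) / R ^ 2) ^ ((1 - a) / 2) :=
  near_extremal (fun _ ht => parabola ht) ha

end Pool.Agent.Helper42.EKC
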