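import Pool.Agent.Helper42.EKC.Defs7
import Pool.Agent.Helper39.Area.Exterior

/-!
Project EKC: the part of the integral of Q1 on which `|log ψ'|` is nearly maximal.
-/

set_option autoImplicit false

open Complex MeasureTheory Metric Set Filter Topology
open scoped Real ComplexConjugate

namespace Pool.Agent.Helper42.EKC

open Pool.Agent.Helper22.Half (SigmaLog)
open Pool.Agent.Helper39.Area (goluzin_ext)

/-- the exponent which has to be negative -/
noncomputable def Fe (a : ℝ) (t w : ℂ) : ℝ := a * ‖w‖ ^ 2 - (t * w).re + ‖t‖ - 1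

theorem Fe_cont (a : ℝ) (t : ℂ) : Continuous (Fe a t) := by
  unfold Fe
  fun_prop

theorem exists_cover {a : ℝ} (ha : a < 1)
    (H : ∀ w : ℂ, ‖w‖ = 1 → ∃ t : ℂ, Mom t ∧ (t * w).re = ‖t‖) :
    ∃ s : ℝ, s < 1 ∧ ∃ T : Finset ℂ, (∀ t ∈ T, Mom t) ∧
      ∀ w : ℂ, s ≤ ‖w‖ → ‖w‖ ≤ 1 → ∃ t ∈ T, Fe a t w ≤ -((1 - a) / 2) := by
  choose! t ht1 ht2 using H
  have hU : ∀ w : ℂ, IsOpen {v : ℂ | Fe a (t w) v < -((1 - a) / 2)} := fun w =>
    isOpen_lt (Fe_cont a (t w)) continuous_const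
  have hc : IsCompact (sphere (0:ℂ) 1) := isCompact_sphere _ _
  obtain ⟨S, hS1, hS2⟩ := hc.elim_nhds_subcover (fun w => {v : ℂ | Fe a (t w) v < -((1 - a) / 2)})
    (by
      intro w hw
      rw [mem_sphere_zero_iff_norm] at hw
      apply (hU w).mem_nhds
      simp only [mem_setOf_eq, Fe]
      rw [ht2 w hw, hw]
      nlinarith)
  -- the complement of the cover in the closed disc
  have hK : IsCompact (closedBall (0:ℂ) 1 \ ⋃ w ∈ S, {v : ℂ | Fe a (t w) v < -((1 - a) / 2)}) :=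
    (isCompact_closedBall _ _).diff (isOpen_biUnion fun w _ => hU w)
  obtain ⟨s, hs1, hs2⟩ : ∃ s : ℝ, s < 1 ∧ ∀ v ∈ (closedBall (0:ℂ) 1 \
      ⋃ w ∈ S, {v : ℂ | Fe a (t w) v < -((1 - a) / 2)}), ‖v‖ < s := by
    rcases (closedBall (0:ℂ) 1 \
      ⋃ w ∈ S, {v : ℂ | Fe a (t w) v < -((1 - a) / 2)}).eq_empty_or_nonempty with h | h
    · refine ⟨0, one_pos, ?_⟩
      rw [h]
      simp
    · obtain ⟨v, hv, hmax⟩ := hK.exists_isMaxOn h continuous_norm.continuousOn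
      have h1 : ‖v‖ < 1 := by
        refine lt_of_le_of_ne (by simpa using hv.1) fun h2 => hv.2 ?_
        exact hS2 (by simpa using h2)
      refine ⟨(‖v‖ + 1) / 2, by linarith, fun u hu => ?_⟩
      have := hmax hu
      simp only [mem_setOf_eq] at this
      linarith
  refine ⟨s, hs1, S.image t, ?_, ?_⟩
  · intro u hu
    obtain ⟨w, hw, rfl⟩ := Finset.mem_image.mp hu
    exact ht1 w (by simpa using hS1 w hw)
  · intro v hv1 hv2
    by_contra hcon
    push Not at hcon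
    have : v ∈ (closedBall (0:ℂ) 1 \ ⋃ w ∈ S, {v : ℂ | Fe a (t w) v < -((1 - a) / 2)}) := by
      refine ⟨by simpa using hv2, ?_⟩
      simp only [mem_iUnion, mem_setOf_eq, not_exists, not_lt]
      intro w hw
      exact (hcon (t w) (Finset.mem_image_of_mem t hw)).le
    exact absurd hv1 (not_le.mpr (hs2 v this))

/-- continuity on the circle of radius `R` -/
theorem h_circle_cont {ψ h : ℂ → ℂ} (H : SigmaLog ψ h) {R : ℝ} (hR : 1 < R) :
    Continuous fun θ : ℝ => h ((R : ℂ) * Complex.exp ((θ : ℂ) * I)) := by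
  rw [continuous_iff_continuousAt]
  intro θ
  have hmem : 1 < ‖(R : ℂ) * Complex.exp ((θ : ℂ) * I)‖ := by
    rw [norm_mul, Complex.norm_exp_ofReal_mul_I, mul_one, Complex.norm_real,
      Real.norm_of_nonneg (by linarith)]
    exact hR
  have h1 : ContinuousAt h ((R : ℂ) * Complex.exp ((θ : ℂ) * I)) :=
    (H.hdiff.differentiableAt
      ((isOpen_lt continuous_const continuous_norm).mem_nhds hmem)).continuousAt
  exact ContinuousAt.comp (f := fun θ : ℝ => (R : ℂ) * Complex.exp ((θ : ℂ) * I)) h1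
    (by fun_prop)

/-- The part of the integral of Q1 on which `|log ψ'|` is nearly maximal tends to zero. -/
theorem near {a : ℝ} (ha : a < 1)
    (H : ∀ w : ℂ, ‖w‖ = 1 → ∃ t : ℂ, Mom t ∧ (t * w).re = ‖t‖) :
    ∃ s : ℝ, s < 1 ∧ ∃ C : ℝ, ∀ ψ h : ℂ → ℂ, SigmaLog ψ h → ∀ R : ℝ, 1 < R →
      (1 / (2 * Real.pi)) * ∫ θ in (0:ℝ)..(2 * Real.pi),
        (if s * Real.log (R ^ 2 / (R ^ 2 - 1)) ≤
            ‖h ((R : ℂ) * Complex.exp ((θ : ℂ) * Complex.I))‖ then
          Real.exp (a * ‖h ((R : ℂ) * Complex.exp ((θ : ℂ) * Complex.I))‖ ^ 2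
            / Real.log (R ^ 2 / (R ^ 2 - 1))) else 0) ≤
        C * ((R ^ 2 - 1) / R ^ 2) ^ ((1 - a) / 2) := by
  obtain ⟨s, hs, T, hT1, hT2⟩ := exists_cover ha H
  choose! C hC using hT1
  refine ⟨s, hs, ∑ t ∈ T, C t, fun ψ h Hψ R hR => ?_⟩
  have hR2 : 0 < R ^ 2 - 1 := by nlinarith
  have hR0 : 0 < R ^ 2 := by positivity
  have hx : 1 < R ^ 2 / (R ^ 2 - 1) := by
    rw [lt_div_iff₀ hR2]
    linarith
  set x : ℝ := R ^ 2 / (R ^ 2 - 1) with hxdef
  set L : ℝ := Real.log x with hL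
  have hLpos : 0 < L := Real.log_pos hx
  have hx0 : 0 < x := by linarith
  have hcont := h_circle_cont Hψ hR
  set g : ℝ → ℂ := fun θ => h ((R : ℂ) * Complex.exp ((θ : ℂ) * Complex.I)) with hg
  have hbound : ∀ θ : ℝ, ‖g θ‖ ≤ L := by
    intro θ
    have hn : ‖(R : ℂ) * Complex.exp ((θ : ℂ) * I)‖ = R := by
      rw [norm_mul, Complex.norm_exp_ofReal_mul_I, mul_one, Complex.norm_real,
        Real.norm_of_nonneg (by linarith)]
    have h1 := goluzin_ext Hψ.diff Hψ.inj Hψ.normalised Hψ.hdiff Hψ.exp_eq Hψ.lim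
      (z := (R : ℂ) * Complex.exp ((θ : ℂ) * I)) (by rw [hn]; exact hR)
    rw [hn] at h1
    exact h1
  -- pointwise estimate
  have hpt : ∀ θ : ℝ, (if s * L ≤ ‖g θ‖ then Real.exp (a * ‖g θ‖ ^ 2 / L) else 0) ≤
      ∑ t ∈ T, x ^ (-(‖t‖ - 1) - (1 - a) / 2) * ‖Complex.exp (t * g θ)‖ := by
    intro θ
    have hnn : ∀ t ∈ T, 0 ≤ x ^ (-(‖t‖ - 1) - (1 - a) / 2) * ‖Complex.exp (t * g θ)‖ :=
      fun t _ => mul_nonneg (Real.rpow_nonneg hx0.le _) (norm_nonneg _)
    split_ifs with hif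
    · have hw1 : s ≤ ‖g θ / (L : ℂ)‖ := by
        rw [norm_div, Complex.norm_real, Real.norm_of_nonneg hLpos.le, le_div_iff₀ hLpos]
        exact hif
      have hw2 : ‖g θ / (L : ℂ)‖ ≤ 1 := by
        rw [norm_div, Complex.norm_real, Real.norm_of_nonneg hLpos.le, div_le_one hLpos]
        exact hbound θ
      obtain ⟨t, htT, ht⟩ := hT2 _ hw1 hw2
      refine le_trans ?_ (Finset.single_le_sum hnn htT)
      rw [Real.rpow_def_of_pos hx0, Complex.norm_exp, ← Real.exp_add]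
      apply Real.exp_le_exp.mpr
      unfold Fe at ht
      rw [norm_div, Complex.norm_real, Real.norm_of_nonneg hLpos.le] at ht
      have e1 : (t * (g θ / (L : ℂ))).re = (t * g θ).re / L := by
        rw [← mul_div_assoc, Complex.div_ofReal_re]
      rw [e1] at ht
      have e2 : a * ‖g θ‖ ^ 2 / L = L * (a * (‖g θ‖ / L) ^ 2) := by
        field_simp
      have e3 : (t * g θ).re = L * ((t * g θ).re / L) := by
        field_simp
      rw [e2, e3, ← hL]
      have h4 := mul_le_mul_of_nonneg_left ht hLpos.le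
      linarith
    · exact Finset.sum_nonneg hnn
  have hint : ∀ t ∈ T, IntervalIntegrable (fun θ : ℝ =>
      x ^ (-(‖t‖ - 1) - (1 - a) / 2) * ‖Complex.exp (t * g θ)‖) volume 0 (2 * Real.pi) := by
    intro t _
    apply Continuous.intervalIntegrable
    fun_prop
  have hsum : IntervalIntegrable (fun θ : ℝ => ∑ t ∈ T,
      x ^ (-(‖t‖ - 1) - (1 - a) / 2) * ‖Complex.exp (t * g θ)‖) volume 0 (2 * Real.pi) := by
    apply Continuous.intervalIntegrable
    fun_prop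
  have hle : (∫ θ in (0:ℝ)..(2 * Real.pi),
      (if s * L ≤ ‖g θ‖ then Real.exp (a * ‖g θ‖ ^ 2 / L) else 0)) ≤
      ∫ θ in (0:ℝ)..(2 * Real.pi), ∑ t ∈ T,
        x ^ (-(‖t‖ - 1) - (1 - a) / 2) * ‖Complex.exp (t * g θ)‖ := by
    rw [intervalIntegral.integral_of_le Real.two_pi_pos.le,
      intervalIntegral.integral_of_le Real.two_pi_pos.le]
    apply MeasureTheory.integral_mono_of_nonneg
    · filter_upwards with θ
      simp only [Pi.zero_apply]
      split_ifs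
      · exact (Real.exp_pos _).le
      · exact le_rfl
    · exact (intervalIntegrable_iff_integrableOn_Ioc_of_le Real.two_pi_pos.le).mp hsum
    · filter_upwards with θ
      exact hpt θ
  have hpi : 0 ≤ 1 / (2 * Real.pi) := by positivity
  refine (mul_le_mul_of_nonneg_left hle hpi).trans ?_
  rw [intervalIntegral.integral_finsetSum hint, Finset.mul_sum, Finset.sum_mul]
  apply Finset.sum_le_sum
  intro t ht
  rw [intervalIntegral.integral_const_mul]
  have h5 := hC t ht ψ h Hψ R hR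
  have h6 : ((R ^ 2 - 1) / R ^ 2) ^ ((1 - a) / 2) = x ^ (-((1 - a) / 2)) := by
    rw [Real.rpow_neg hx0.le, ← Real.inv_rpow hx0.le, hxdef, inv_div]
  rw [h6]
  have h7 : x ^ (-(‖t‖ - 1) - (1 - a) / 2) = x ^ (-((1 - a) / 2)) * x ^ (-(‖t‖ - 1)) := by
    rw [← Real.rpow_add hx0]
    congr 1
    ring
  have h8 : x ^ (-(‖t‖ - 1)) * x ^ (‖t‖ - 1) = 1 := by
    rw [← Real.rpow_add hx0]
    simp
  have h9 : 0 ≤ x ^ (-((1 - a) / 2)) * x ^ (-(‖t‖ - 1)) := by positivity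
  calc 1 / (2 * Real.pi) * (x ^ (-(‖t‖ - 1) - (1 - a) / 2) *
        ∫ θ in (0:ℝ)..(2 * Real.pi), ‖Complex.exp (t * g θ)‖)
      = (x ^ (-((1 - a) / 2)) * x ^ (-(‖t‖ - 1))) *
        (1 / (2 * Real.pi) * ∫ θ in (0:ℝ)..(2 * Real.pi), ‖Complex.exp (t * g θ)‖) := by
        rw [h7]; ring
    _ ≤ (x ^ (-((1 - a) / 2)) * x ^ (-(‖t‖ - 1))) * (C t * x ^ (‖t‖ - 1)) :=
        mul_le_mul_of_nonneg_left h5 h9
    _ = C t * x ^ (-((1 - a) / 2)) * (x ^ (-(‖t‖ - 1)) * x ^ (‖t‖ - 1)) := by ring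
    _ = C t * x ^ (-((1 - a) / 2)) := by rw [h8, mul_one]

end Pool.Agent.Helper42.EKC
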